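import Pool.Agent.H27.LV.Basic

/-!
# MP_70ba79_ag: modules DK, UL, SPL
-/

set_option autoImplicit false

namespace Pool.Agent.H95.LV

open MvPolynomial Pool.Agent.H27.LV

theorem dk : T_DK := by
  intro k K _ _ _ n d ι _ a φ hφ g hg
  have hmono : ∀ p : Mon (n + 1) d, mono K p.1 =
      ∑ i, C (eval (evk K (a i)) (mono K p.1)) * MvPolynomial.map (algebraMap k K) (φ i) := by
    intro p
    have h1 : mono K p.1 = MvPolynomial.map (algebraMap k K) (mono k p.1) := by
      simp [mono, map_monomial]
    have h2 := hφ.repr (mono k p.1) (isHomogeneous_mono (K := k) p)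
    conv_lhs => rw [h1, h2]
    rw [map_sum]
    refine Finset.sum_congr rfl fun i _ => ?_
    rw [map_mul, map_C, eval_evk_mono]
  have hg' := dec hg
  conv_lhs => rw [hg']
  have h3 : ∀ i, eval (evk K (a i)) g = ∑ p : Mon (n + 1) d,
      g.coeff (fs p.1) * eval (evk K (a i)) (mono K p.1) := by
    intro i
    conv_lhs => rw [hg']
    rw [map_sum]
    refine Finset.sum_congr rfl fun p _ => ?_
    rw [map_mul, eval_C]
  calc ∑ p : Mon (n + 1) d, C (g.coeff (fs p.1)) * mono K p.1
      = ∑ p : Mon (n + 1) d, C (g.coeff (fs p.1)) *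
          ∑ i, C (eval (evk K (a i)) (mono K p.1)) * MvPolynomial.map (algebraMap k K) (φ i) := by
        refine Finset.sum_congr rfl fun p _ => ?_
        rw [← hmono p]
    _ = ∑ i, C (eval (evk K (a i)) g) * MvPolynomial.map (algebraMap k K) (φ i) := by
        simp only [Finset.mul_sum]
        rw [Finset.sum_comm]
        refine Finset.sum_congr rfl fun i _ => ?_
        rw [h3 i, map_sum, Finset.sum_mul]
        refine Finset.sum_congr rfl fun p _ => ?_
        rw [C_mul, mul_assoc]

theorem ul (hDK : T_DK) : T_UL := by
  intro k K _ _ _ n d ι _ a φ D x hφ hx g hg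
  have hhom : (g * lin (fun j => D (x j))).IsHomogeneous (d + 1) :=
    hg.mul (isHomogeneous_lin _)
  have h1 := hDK k K n (d + 1) ι a φ hφ (g * lin (fun j => D (x j))) hhom
  have h2 : ∑ i, C (eval (evk K (a i)) (lin x * g) * (D (ell (a i) x) / ell (a i) x)) *
      MvPolynomial.map (algebraMap k K) (φ i) = g * lin (fun j => D (x j)) := by
    conv_rhs => rw [h1]
    refine Finset.sum_congr rfl fun i _ => ?_
    congr 2
    rw [map_mul, map_mul, eval_lin, eval_lin_D]
    have := hx i
    field_simp
  unfold uu
  rw [h2]
  ring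

theorem spl : T_SPL := by
  intro n d b
  let f : Mon n (d + 1) ⊕ Mon (n + 1) d → Mon (n + 1) (d + 1) :=
    Sum.elim (fun q => inMon b q)
      (fun p => ⟨fun j => p.1 j + if j = b then 1 else 0, by
        rw [Finset.sum_add_distrib, p.2]
        simp⟩)
  have hf1 : ∀ q, (f (Sum.inl q)).1 = insm b q := fun q => rfl
  have hf2 : ∀ p, (f (Sum.inr p)).1 = fun j => p.1 j + if j = b then 1 else 0 := fun p => rfl
  have hinj : Function.Injective f := by
    intro s t h
    have h0 : (f s).1 = (f t).1 := by rw [h]
    rcases s with q | p <;> rcases t with q' | p'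
    · rw [hf1, hf1] at h0
      rw [insm_injective b h0]
    · exfalso
      rw [hf1, hf2] at h0
      have := congrFun h0 b
      simp [insm_self] at this
    · exfalso
      rw [hf1, hf2] at h0
      have := congrFun h0 b
      simp [insm_self] at this
    · rw [hf2, hf2] at h0
      congr 1
      apply Subtype.ext
      funext j
      have := congrFun h0 j
      simpa using this
  have hsurj : Function.Surjective f := by
    intro p
    by_cases hp : p.1 b = 0
    · have hs : ∑ i, p.1 (b.succAbove i) = d + 1 := by
        have := p.2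
        rw [Fin.sum_univ_succAbove _ b, hp, zero_add] at this
        exact this
      refine ⟨Sum.inl ⟨fun i => p.1 (b.succAbove i), hs⟩, ?_⟩
      apply Subtype.ext
      rw [hf1]
      funext j
      rcases Fin.eq_self_or_eq_succAbove b j with h | ⟨i, h⟩
      · rw [h, insm_self, hp]
      · rw [h, insm_succAbove]
    · have hs : ∑ j, (p.1 j - if j = b then 1 else 0) = d := by
        have h1 : ∑ j, ((p.1 j - if j = b then 1 else 0) + if j = b then 1 else 0) = d + 1 := by
          refine Eq.trans (Finset.sum_congr rfl fun j _ => ?_) p.2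
          split_ifs with hj
          · rw [hj]; omega
          · omega
        rw [Finset.sum_add_distrib] at h1
        simpa using h1
      refine ⟨Sum.inr ⟨fun j => p.1 j - if j = b then 1 else 0, hs⟩, ?_⟩
      apply Subtype.ext
      rw [hf2]
      funext j
      dsimp only
      split_ifs with hj
      · rw [hj]; omega
      · omega
  exact ⟨Equiv.ofBijective f ⟨hinj, hsurj⟩, fun q => hf1 q, fun p => hf2 p⟩

end Pool.Agent.H95.LV
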